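import Pool.Agent.helper89.PU.Spec1

/-!
# pv:EIG: an eigenvector of a two by two matrix
-/

set_option autoImplicit false

namespace Pool.Agent.PV

open Matrix Polynomial Pool.Agent.GO Pool.Agent.AR Pool.Agent.RG Pool.Agent.HZ Pool.Agent.DS
  Pool.Agent.AX Pool.Agent.UM Pool.Agent.PU MeasureTheory NumberField

theorem EIG_lam {K : Type} [NormedField K] (w : Fin 2 → K) (Y : Matrix (Fin 2) (Fin 2) K) :
    lam w Y = w 0 * (Y *ᵥ w) 1 - w 1 * (Y *ᵥ w) 0 := by
  unfold lam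
  simp only [Matrix.mulVec, dotProduct, Fin.sum_univ_two]
  ring

theorem EIG_vec {K : Type} [NormedField K] [IsAlgClosed K] (A : Matrix (Fin 2) (Fin 2) K) :
    ∃ (w : Fin 2 → K) (β : K), (∀ i, ‖w i‖ ≤ 1) ∧ (‖w 0‖ = 1 ∨ ‖w 1‖ = 1) ∧ A *ᵥ w = β • w := by
  obtain ⟨β, hβ⟩ := Module.End.exists_eigenvalue (Matrix.toLin' A)
  obtain ⟨v, hv⟩ := hβ.exists_hasEigenvector
  have h1 : A *ᵥ v = β • v := by
    have h2 := hv.apply_eq_smul
    rwa [Matrix.toLin'_apply] at h2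
  have h3 : ∀ c : K, A *ᵥ (c • v) = β • (c • v) := by
    intro c
    rw [Matrix.mulVec_smul, h1, smul_comm]
  have hv0 : v ≠ 0 := hv.2
  rcases le_total ‖v 1‖ ‖v 0‖ with h | h
  · have h0 : v 0 ≠ 0 := by
      intro h4
      rw [h4, norm_zero] at h
      have h5 : v 1 = 0 := norm_le_zero_iff.1 h
      apply hv0
      ext i
      fin_cases i
      · exact h4
      · exact h5
    refine ⟨(v 0)⁻¹ • v, β, ?_, Or.inl ?_, h3 _⟩
    · intro i
      have h6 : 0 < ‖v 0‖ := norm_pos_iff.2 h0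
      fin_cases i
      · show ‖(v 0)⁻¹ * v 0‖ ≤ 1
        rw [inv_mul_cancel₀ h0, norm_one]
      · show ‖(v 0)⁻¹ * v 1‖ ≤ 1
        rw [norm_mul, norm_inv, inv_mul_le_iff₀ h6, mul_one]
        exact h
    · show ‖(v 0)⁻¹ * v 0‖ = 1
      rw [inv_mul_cancel₀ h0, norm_one]
  · have h0 : v 1 ≠ 0 := by
      intro h4
      rw [h4, norm_zero] at h
      have h5 : v 0 = 0 := norm_le_zero_iff.1 h
      apply hv0
      ext i
      fin_cases i
      · exact h5
      · exact h4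
    refine ⟨(v 1)⁻¹ • v, β, ?_, Or.inr ?_, h3 _⟩
    · intro i
      have h6 : 0 < ‖v 1‖ := norm_pos_iff.2 h0
      fin_cases i
      · show ‖(v 1)⁻¹ * v 0‖ ≤ 1
        rw [norm_mul, norm_inv, inv_mul_le_iff₀ h6, mul_one]
        exact h
      · show ‖(v 1)⁻¹ * v 1‖ ≤ 1
        rw [inv_mul_cancel₀ h0, norm_one]
    · show ‖(v 1)⁻¹ * v 1‖ = 1
      rw [inv_mul_cancel₀ h0, norm_one]

theorem EIG : EIG_stmt := by
  intro K _ _ A A' hAA' hA'A
  obtain ⟨w, β, hw1, hw2, hA⟩ := EIG_vec A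
  have e0 : A 0 0 * w 0 + A 0 1 * w 1 = β * w 0 := by
    have h1 := congrFun hA 0
    simpa [Matrix.mulVec, dotProduct, Fin.sum_univ_two] using h1
  have e1 : A 1 0 * w 0 + A 1 1 * w 1 = β * w 1 := by
    have h1 := congrFun hA 1
    simpa [Matrix.mulVec, dotProduct, Fin.sum_univ_two] using h1
  have hdet : (A 0 0 - β) * (A 1 1 - β) - A 0 1 * A 1 0 = 0 := by
    rcases hw2 with h | h
    · have h0 : w 0 ≠ 0 := by
        intro h4
        rw [h4, norm_zero] at h
        exact zero_ne_one h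
      refine (mul_eq_zero.1 (?_ : w 0 * _ = 0)).resolve_left h0
      linear_combination (A 1 1 - β) * e0 - A 0 1 * e1
    · have h0 : w 1 ≠ 0 := by
        intro h4
        rw [h4, norm_zero] at h
        exact zero_ne_one h
      refine (mul_eq_zero.1 (?_ : w 1 * _ = 0)).resolve_left h0
      linear_combination (A 0 0 - β) * e1 - A 1 0 * e0
  refine ⟨w, A.trace - β, β, hw1, hw2, sub_add_cancel _ _, ?_, fun Y => ?_⟩
  · rw [Matrix.trace_fin_two, Matrix.det_fin_two]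
    linear_combination -hdet
  · have h1 : β • (A' *ᵥ w) = w := by
      rw [← Matrix.mulVec_smul, ← hA, Matrix.mulVec_mulVec, hA'A, Matrix.one_mulVec]
    have h2 : β • ((A * Y * A') *ᵥ w) = A *ᵥ (Y *ᵥ w) := by
      rw [← Matrix.mulVec_mulVec, ← Matrix.mulVec_mulVec, ← Matrix.mulVec_smul,
        ← Matrix.mulVec_smul, h1]
    have h3 : β * lam w (A * Y * A') = w 0 * (β • ((A * Y * A') *ᵥ w)) 1 -
        w 1 * (β • ((A * Y * A') *ᵥ w)) 0 := by
      rw [EIG_lam]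
      simp only [Pi.smul_apply, smul_eq_mul]
      ring
    rw [h3, h2, EIG_lam, Matrix.trace_fin_two]
    generalize Y *ᵥ w = z
    simp only [Matrix.mulVec, dotProduct, Fin.sum_univ_two]
    linear_combination z 0 * e1 - z 1 * e0

end Pool.Agent.PV
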