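import Pool.Agent.helper16.PU.Spec2

/-!
# pu:IDX: the index of a closed normal subgroup
-/

set_option autoImplicit false

namespace Pool.Agent.PU

open Matrix Polynomial Pool.Agent.GO Pool.Agent.AR Pool.Agent.RG Pool.Agent.HZ Pool.Agent.DS
  Pool.Agent.AX Pool.Agent.UM NumberField

theorem IDX_norm {F : Type} [NormedField F] (π : F) (h0 : 0 < ‖π‖) (h1 : ‖π‖ < 1)
    (hπ : ∀ x : F, ‖x‖ < 1 → ‖x‖ ≤ ‖π‖) (x : F) (hx0 : 0 < ‖x‖) (hx1 : ‖x‖ ≤ 1) :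
    ∃ k : ℕ, ‖x‖ = ‖π‖ ^ k := by
  classical
  have hex : ∃ n : ℕ, ‖π‖ ^ n < ‖x‖ := exists_pow_lt_of_lt_one hx0 h1
  have hn := Nat.find_spec hex
  have hmin := fun m => Nat.find_min hex (m := m)
  set n := Nat.find hex
  rcases Nat.eq_zero_or_pos n with h | h
  · rw [h, pow_zero] at hn
    exact absurd hn (not_lt.2 hx1)
  · obtain ⟨k, hk⟩ : ∃ k, n = k + 1 := ⟨n - 1, by omega⟩
    refine ⟨k, ?_⟩
    rw [hk] at hn
    have h2 : ‖x‖ ≤ ‖π‖ ^ k := not_lt.1 (hmin k (by omega))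
    refine le_antisymm h2 (not_lt.1 fun hlt => ?_)
    have hk0 : 0 < ‖π‖ ^ k := pow_pos h0 k
    have h3 : ‖x / π ^ k‖ = ‖x‖ / ‖π‖ ^ k := by rw [norm_div, norm_pow]
    have h4 : ‖x / π ^ k‖ < 1 := by
      rw [h3, div_lt_one hk0]
      exact hlt
    have h5 := hπ _ h4
    rw [h3, div_le_iff₀ hk0, ← pow_succ'] at h5
    exact absurd h5 (not_le.2 hn)

theorem IDX_sub {F κ : Type} [NormedField F] [IsUltrametricDist F] [Field κ] {red : F → κ}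
    (hred : IsRed red) {x y : F} (hx : ‖x‖ ≤ 1) (hy : ‖y‖ ≤ 1) : red (x - y) = red x - red y := by
  have h1 := hred.add (x - y) y (LFT_sub hx hy) hy
  rw [sub_add_cancel] at h1
  rw [h1, add_sub_cancel_right]

/-- elements which are scalar under `S` are near the scalars -/
theorem IDX_ad {Γ F κ : Type} [Group Γ] [NormedField F] [IsUltrametricDist F] [Field κ]
    {red : F → κ} (hred : IsRed red) (ρ : Γ →* Matrix (Fin 2) (Fin 2) F)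
    (S : Γ →* Matrix (Fin 2) (Fin 2) κ) (hint : ∀ g a b, ‖ρ g a b‖ ≤ 1)
    (hS : ∀ g, S g = (ρ g).map red) (g : Γ) (hg : g ∈ adKer S) :
    ‖ρ g 0 1‖ < 1 ∧ ‖ρ g 1 0‖ < 1 ∧ ‖ρ g 0 0 - ρ g 1 1‖ < 1 := by
  obtain ⟨s, hs⟩ := hg
  have hSg : ∀ a b, red (ρ g a b) = (s • (1 : Matrix (Fin 2) (Fin 2) κ)) a b := by
    intro a b
    rw [← hs, hS]
    rfl
  refine ⟨?_, ?_, ?_⟩
  · have h2 := hSg 0 1
    simp only [Matrix.smul_apply, Matrix.one_apply_ne (show (0 : Fin 2) ≠ 1 by decide),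
      smul_zero] at h2
    exact (hred.zero_iff _ (hint g 0 1)).mp h2
  · have h2 := hSg 1 0
    simp only [Matrix.smul_apply, Matrix.one_apply_ne (show (1 : Fin 2) ≠ 0 by decide),
      smul_zero] at h2
    exact (hred.zero_iff _ (hint g 1 0)).mp h2
  · have h2 := hSg 0 0
    have h3 := hSg 1 1
    simp only [Matrix.smul_apply, Matrix.one_apply_eq] at h2 h3
    refine (hred.zero_iff _ (LFT_sub (hint g 0 0) (hint g 1 1))).mp ?_
    rw [IDX_sub hred (hint g 0 0) (hint g 1 1), h2, h3, sub_self]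

/-- the number of leading terms -/
theorem IDX_card (p : ℕ) [Fact p.Prime] (hp2 : p ≠ 2) {Γ F κ : Type} [Group Γ] [NormedField F]
    [IsUltrametricDist F] [Field κ] [CharP κ p] {red : F → κ} (hred : IsRed red)
    (ρ : Γ →* Matrix (Fin 2) (Fin 2) F) (hint : ∀ g a b, ‖ρ g a b‖ ≤ 1) {π : F} {r : ℝ}
    (hr0 : 0 < r) (hr1 : r < 1) (hπ : ‖π‖ = r) (Z : Subgroup Γ)
    (hR : (red '' {x | ‖x‖ ≤ 1}).Finite) (q : ℕ) (hq : (red '' {x | ‖x‖ ≤ 1}).ncard ≤ q) :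
    Nat.card (LFT_sub_lt ρ hred hr0 hr1 hπ hint Z) ≠ 0 ∧
      Nat.card (LFT_sub_lt ρ hred hr0 hr1 hπ hint Z) ≤ q ^ 3 := by
  have h2κ : (2 : κ) ≠ 0 := by
    intro h0
    have h1 : ((2 : ℕ) : κ) = 0 := by exact_mod_cast h0
    rw [CharP.cast_eq_zero_iff κ p] at h1
    exact hp2 ((Nat.prime_dvd_prime_iff_eq (Fact.out : p.Prime) Nat.prime_two).mp h1)
  have hfinR : Finite (red '' {x | ‖x‖ ≤ 1}) := hR.to_subtype
  have key : ∀ X : LFT_sub_lt ρ hred hr0 hr1 hπ hint Z,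
      (X : Matrix (Fin 2) (Fin 2) κ) 0 1 ∈ red '' {x | ‖x‖ ≤ 1} ∧
      (X : Matrix (Fin 2) (Fin 2) κ) 1 0 ∈ red '' {x | ‖x‖ ≤ 1} ∧
      2 * (X : Matrix (Fin 2) (Fin 2) κ) 0 0 ∈ red '' {x | ‖x‖ ≤ 1} ∧
      (X : Matrix (Fin 2) (Fin 2) κ) 1 1 = -(X : Matrix (Fin 2) (Fin 2) κ) 0 0 := by
    rintro ⟨X, x, hx, htr, c, Y, s, hc, hρ, hY, hX⟩
    have e1 : ∀ a b, ‖(π⁻¹ • Y) a b‖ ≤ 1 := LFT_pi hr0 hπ (by simpa using hY)
    have htr' : X 0 0 + X 1 1 = 0 := by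
      rw [← Matrix.trace_fin_two]
      exact htr
    refine ⟨?_, ?_, ?_, eq_neg_of_add_eq_zero_right htr'⟩
    · refine ⟨(π⁻¹ • Y) 0 1, e1 0 1, ?_⟩
      show red ((π⁻¹ • Y) 0 1) = X 0 1
      rw [hX]
      simp
    · refine ⟨(π⁻¹ • Y) 1 0, e1 1 0, ?_⟩
      show red ((π⁻¹ • Y) 1 0) = X 1 0
      rw [hX]
      simp
    · refine ⟨(π⁻¹ • Y) 0 0 - (π⁻¹ • Y) 1 1, LFT_sub (e1 0 0) (e1 1 1), ?_⟩
      show red ((π⁻¹ • Y) 0 0 - (π⁻¹ • Y) 1 1) = 2 * X 0 0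
      rw [IDX_sub hred (e1 0 0) (e1 1 1)]
      have h1 : X 0 0 = red ((π⁻¹ • Y) 0 0) + s := by
        rw [hX]
        simp
      have h2 : X 1 1 = red ((π⁻¹ • Y) 1 1) + s := by
        rw [hX]
        simp
      linear_combination h2 - h1 - htr'
  let f : LFT_sub_lt ρ hred hr0 hr1 hπ hint Z →
      (red '' {x | ‖x‖ ≤ 1}) × (red '' {x | ‖x‖ ≤ 1}) × (red '' {x | ‖x‖ ≤ 1}) :=
    fun X => (⟨_, (key X).1⟩, ⟨_, (key X).2.1⟩, ⟨_, (key X).2.2.1⟩)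
  have hf : Function.Injective f := by
    intro X X' h
    have h01 : (X : Matrix (Fin 2) (Fin 2) κ) 0 1 = (X' : Matrix (Fin 2) (Fin 2) κ) 0 1 :=
      congrArg (fun t => (t.1 : κ)) h
    have h10 : (X : Matrix (Fin 2) (Fin 2) κ) 1 0 = (X' : Matrix (Fin 2) (Fin 2) κ) 1 0 :=
      congrArg (fun t => (t.2.1 : κ)) h
    have h00' : 2 * (X : Matrix (Fin 2) (Fin 2) κ) 0 0 = 2 * (X' : Matrix (Fin 2) (Fin 2) κ) 0 0 :=
      congrArg (fun t => (t.2.2 : κ)) h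
    have h00 := mul_left_cancel₀ h2κ h00'
    refine Subtype.ext ?_
    ext a b
    fin_cases a <;> fin_cases b
    · exact h00
    · exact h01
    · exact h10
    · show (X : Matrix (Fin 2) (Fin 2) κ) 1 1 = (X' : Matrix (Fin 2) (Fin 2) κ) 1 1
      rw [(key X).2.2.2, (key X').2.2.2, h00]
  have hfin : Finite (LFT_sub_lt ρ hred hr0 hr1 hπ hint Z) := Finite.of_injective f hf
  refine ⟨Nat.card_ne_zero.2 ⟨⟨0⟩, hfin⟩, ?_⟩
  have h1 := Nat.card_le_card_of_injective f hf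
  rw [Nat.card_prod, Nat.card_prod, Nat.card_coe_set_eq] at h1
  calc _ ≤ _ := h1
    _ ≤ q * (q * q) := Nat.mul_le_mul hq (Nat.mul_le_mul hq hq)
    _ = q ^ 3 := by ring

/-- the first index -/
theorem IDX_top {Γ F κ : Type} [Group Γ] [NormedField F] [Field κ] {red : F → κ}
    (ρ : Γ →* Matrix (Fin 2) (Fin 2) F) (S : Γ →* Matrix (Fin 2) (Fin 2) κ)
    (hint : ∀ g a b, ‖ρ g a b‖ ≤ 1) (hS : ∀ g, S g = (ρ g).map red) (L : Subgroup Γ)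
    (hL : adKer S ≤ L) (hR : (red '' {x | ‖x‖ ≤ 1}).Finite) (q : ℕ)
    (hq : (red '' {x | ‖x‖ ≤ 1}).ncard ≤ q) : L.index ≠ 0 ∧ L.index ≤ q ^ 4 := by
  have hfinR : Finite (red '' {x | ‖x‖ ≤ 1}) := hR.to_subtype
  have key : ∀ g a b, S g a b ∈ red '' {x | ‖x‖ ≤ 1} := by
    intro g a b
    refine ⟨ρ g a b, hint g a b, ?_⟩
    rw [hS]
    rfl
  let f : Γ ⧸ L → (red '' {x | ‖x‖ ≤ 1}) × (red '' {x | ‖x‖ ≤ 1}) × (red '' {x | ‖x‖ ≤ 1}) ×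
      (red '' {x | ‖x‖ ≤ 1}) :=
    fun t => (⟨_, key t.out 0 0⟩, ⟨_, key t.out 0 1⟩, ⟨_, key t.out 1 0⟩, ⟨_, key t.out 1 1⟩)
  have hf : Function.Injective f := by
    intro t t' h
    have h00 : S t.out 0 0 = S t'.out 0 0 := congrArg (fun t => (t.1 : κ)) h
    have h01 : S t.out 0 1 = S t'.out 0 1 := congrArg (fun t => (t.2.1 : κ)) h
    have h10 : S t.out 1 0 = S t'.out 1 0 := congrArg (fun t => (t.2.2.1 : κ)) h
    have h11 : S t.out 1 1 = S t'.out 1 1 := congrArg (fun t => (t.2.2.2 : κ)) h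
    have hSS : S t.out = S t'.out := by
      ext a b
      fin_cases a <;> fin_cases b
      · exact h00
      · exact h01
      · exact h10
      · exact h11
    have h1 : t.out⁻¹ * t'.out ∈ L := by
      refine hL ⟨1, ?_⟩
      rw [map_mul, ← hSS, hom_inv_mul', one_smul]
    have h2 := QuotientGroup.eq.2 h1
    rwa [QuotientGroup.out_eq', QuotientGroup.out_eq'] at h2
  have hfin : Finite (Γ ⧸ L) := Finite.of_injective f hf
  rw [Subgroup.index_eq_card]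
  refine ⟨Nat.card_ne_zero.2 ⟨⟨QuotientGroup.mk 1⟩, hfin⟩, ?_⟩
  have h1 := Nat.card_le_card_of_injective f hf
  rw [Nat.card_prod, Nat.card_prod, Nat.card_prod, Nat.card_coe_set_eq] at h1
  calc _ ≤ _ := h1
    _ ≤ q * (q * (q * q)) := Nat.mul_le_mul hq (Nat.mul_le_mul hq (Nat.mul_le_mul hq hq))
    _ = q ^ 4 := by ring

theorem IDX_numbers (p d b : ℕ) (hp : 1 < p) (hd : 1 ≤ d) (r s : ℝ) (hr0 : 0 < r)
    (hrd : r ^ d ≤ (p : ℝ)⁻¹) (hs : s = r ^ b) :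
    (((p ^ (4 * d)) ^ (b + 1) : ℕ) : ℝ) ≤ ((p : ℝ) / s) ^ (4 * d ^ 2) := by
  have hp0 : (0 : ℝ) < p := by exact_mod_cast (by omega : 0 < p)
  have hp1 : (1 : ℝ) ≤ p := by exact_mod_cast hp.le
  have hs0 : 0 < s := hs ▸ pow_pos hr0 b
  have h1 : (p : ℝ) ^ b ≤ (s ^ d)⁻¹ := by
    rw [hs, ← pow_mul, mul_comm b d, pow_mul]
    rw [le_inv_comm₀ (pow_pos hp0 b) (pow_pos (pow_pos hr0 d) b), ← inv_pow]
    exact pow_le_pow_left₀ (pow_pos hr0 d).le hrd b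
  have h2 : ((p : ℝ) / s) ^ (4 * d ^ 2) = (p : ℝ) ^ (4 * d ^ 2) * ((s ^ d)⁻¹) ^ (4 * d) := by
    rw [div_pow, div_eq_mul_inv, ← inv_pow, ← inv_pow, ← pow_mul]
    congr 2
    ring
  have h3 : (p : ℝ) ^ (4 * d) ≤ (p : ℝ) ^ (4 * d ^ 2) := by
    refine pow_le_pow_right₀ hp1 ?_
    nlinarith
  have h4 : ((p : ℝ) ^ b) ^ (4 * d) ≤ ((s ^ d)⁻¹) ^ (4 * d) :=
    pow_le_pow_left₀ (pow_pos hp0 b).le h1 _
  rw [h2]
  calc (((p ^ (4 * d)) ^ (b + 1) : ℕ) : ℝ) = (p : ℝ) ^ (4 * d) * ((p : ℝ) ^ b) ^ (4 * d) := by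
        push_cast
        ring
    _ ≤ _ := mul_le_mul h3 h4 (by positivity) (by positivity)

theorem IDX_L_congr {Γ F : Type} [Group Γ] [NormedField F] [IsUltrametricDist F]
    (ρ : Γ →* Matrix (Fin 2) (Fin 2) F) (hint : ∀ g a b, ‖ρ g a b‖ ≤ 1) {ε ε' : ℝ} (hε : 0 ≤ ε)
    (hε' : 0 ≤ ε') (h : ε = ε') : FIX_L ρ hint ε hε = FIX_L ρ hint ε' hε' := by
  subst h
  rfl

theorem IDX (hRAM : RAM_stmt) (hRSC : RSC_stmt) (hGRD : GRD_stmt) (hSHF : SHF_stmt)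
    (hTEL : TEL_stmt) (hCPT : CPT_stmt) : IDX_stmt := by
  intro p d _ hp2 Γ _ _ _ _ F κ _ _ _ _ _ red hred hd ρ S hρc hint hS hPSL Z hZn hZc hZS z hz hnu
  have hp := (Fact.out : p.Prime)
  have hultra : IsUltrametricDist F := IsUltrametricDist.of_normedAlgebra ℚ_[p]
  obtain ⟨hram1, π, hπ0, hπ1, hπ⟩ := hRAM p d F hd
  obtain ⟨hRfin, hRcard⟩ := hRSC p d F κ red hred hd
  have hd1 : 1 ≤ d := by
    have h1 : 0 < Module.finrank ℚ_[p] F := Module.finrank_pos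
    omega
  set r : ℝ := ‖π‖ with hr
  have hrj : ∀ j : ℕ, 0 < r ^ j := fun j => pow_pos hπ0 j
  let L : ℕ → Subgroup Γ := fun j => FIX_L ρ hint (r ^ j) (hrj j).le
  have hmemL : ∀ j g, g ∈ L j ↔ ‖ρ g 0 1‖ ≤ r ^ j ∧ ‖ρ g 1 0‖ ≤ r ^ j ∧
      ‖ρ g 0 0 - ρ g 1 1‖ ≤ r ^ j := fun j g => Iff.rfl
  have hL0 : L 0 = ⊤ := by
    refine (Subgroup.eq_top_iff' _).2 fun g => ?_
    rw [hmemL, pow_zero]
    exact ⟨hint g 0 1, hint g 1 0, LFT_sub (hint g 0 0) (hint g 1 1)⟩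
  have hanti : Antitone L := by
    intro i j hij g hg
    rw [hmemL] at hg ⊢
    have h1 : r ^ j ≤ r ^ i := pow_le_pow_of_le_one hπ0.le hπ1.le hij
    exact ⟨hg.1.trans h1, hg.2.1.trans h1, hg.2.2.trans h1⟩
  have hLn : ∀ j, (L j).Normal := fun j => FIX_L_normal ρ hint _ _
  have hLc : ∀ j, IsClosed (L j : Set Γ) := fun j =>
    Subgroup.isClosed_of_isOpen _ (FIX_L_open ρ hint hρc (r ^ j) (hrj j))
  have hSL : adKer S ≤ L 1 := by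
    intro g hg
    obtain ⟨h1, h2, h3⟩ := IDX_ad hred ρ S hint hS g hg
    rw [hmemL, pow_one]
    exact ⟨hπ _ h1, hπ _ h2, hπ _ h3⟩
  have hZL : Z ≤ L 1 := hZS.trans hSL
  -- the level of `z`
  obtain ⟨x, hx⟩ : ∃ x : F, nu (ρ z) = ‖x‖ := by
    unfold nu
    rcases max_choice (max ‖ρ z 0 1‖ ‖ρ z 1 0‖) ‖ρ z 0 0 - ρ z 1 1‖ with h | h
    · rcases max_choice ‖ρ z 0 1‖ ‖ρ z 1 0‖ with h' | h'
      · exact ⟨_, h.trans h'⟩
      · exact ⟨_, h.trans h'⟩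
    · exact ⟨_, h⟩
  have hzlt : nu (ρ z) < 1 := by
    obtain ⟨h1, h2, h3⟩ := IDX_ad hred ρ S hint hS z (hZS hz)
    exact max_lt (max_lt h1 h2) h3
  obtain ⟨b, hb⟩ := IDX_norm π hπ0 hπ1 hπ x (hx ▸ hnu) (hx ▸ hzlt.le)
  have hnub : nu (ρ z) = r ^ b := hx.trans hb
  have hb1 : b ≠ 0 := by
    rintro rfl
    rw [hnub, pow_zero] at hzlt
    exact lt_irrefl _ hzlt
  -- the graded pieces
  have hstep : ∀ j : ℕ, r ^ (j + 1) < r ^ j := fun j => by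
    rw [pow_succ]
    exact mul_lt_of_lt_one_right (hrj j) hπ1
  have hnext : ∀ (j : ℕ) (x : F), ‖x‖ < r ^ j → ‖x‖ ≤ r ^ (j + 1) := by
    intro j x hx
    have h1 : ‖x / π ^ j‖ < 1 := by
      rw [norm_div, norm_pow, div_lt_one (hrj j)]
      exact hx
    have h2 := hπ _ h1
    rw [norm_div, norm_pow, div_le_iff₀ (hrj j), ← pow_succ'] at h2
    exact h2
  have hlt1 : ∀ j : ℕ, j ≠ 0 → r ^ j < 1 := fun j hj => pow_lt_one₀ hπ0.le hπ1 hj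
  have hw : ∀ j, ∀ hj : j ≠ 0, (L (j + 1)).relIndex (L j) =
      Nat.card (LFT_sub_lt ρ hred (hrj j) (hlt1 j hj) (norm_pow π j) hint ⊤) := by
    intro j hj
    have h1 := hGRD p hp2 Γ F κ red hred ρ hint (π ^ j) (r ^ j) (r ^ (j + 1)) (hrj j) (hlt1 j hj)
      (norm_pow π j) (hrj (j + 1)).le (hstep j) (hnext j) ⊤
    rw [inf_top_eq, inf_top_eq] at h1
    exact h1
  have hq4 : (p ^ d) ^ 4 = p ^ (4 * d) := by
    rw [← pow_mul, mul_comm]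
  have hq3 : (p ^ d) ^ 3 ≤ p ^ (4 * d) := by
    rw [← hq4]
    exact Nat.pow_le_pow_right (pow_pos hp.pos d) (by norm_num)
  have hindex : ∀ j, (L (j + 1)).relIndex (L j) ≠ 0 ∧ (L (j + 1)).relIndex (L j) ≤ p ^ (4 * d) := by
    intro j
    by_cases hj : j = 0
    · subst hj
      rw [hL0, Subgroup.relIndex_top_right, ← hq4]
      exact IDX_top ρ S hint hS (L (0 + 1)) hSL hRfin (p ^ d) hRcard
    · rw [hw j hj]
      obtain ⟨h1, h2⟩ := IDX_card p hp2 hred ρ hint (hrj j) (hlt1 j hj) (norm_pow π j) ⊤ hRfin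
        (p ^ d) hRcard
      exact ⟨h1, h2.trans hq3⟩
  have hindexZ : ∀ j, (L (j + 1) ⊓ Z).relIndex (L j ⊓ Z) ≠ 0 := by
    intro j
    refine Subgroup.relIndex_inf_ne_zero ?_ ?_
    · intro h
      exact (hindex j).1 (Subgroup.relIndex_eq_zero_of_le_right inf_le_left h)
    · rw [Subgroup.relIndex_eq_one.2 inf_le_right]
      exact one_ne_zero
  have hshift : ∀ j, 1 ≤ j →
      (L (j + 1)).relIndex (L j) ≤ (L (j + b + 1) ⊓ Z).relIndex (L (j + b) ⊓ Z) := by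
    intro j hj
    have hj0 : j ≠ 0 := by omega
    have hrs0 : 0 < r ^ j * r ^ b := mul_pos (hrj j) (hrj b)
    have hrs1 : r ^ j * r ^ b < 1 := by
      rw [← pow_add]
      exact hlt1 (j + b) (by omega)
    have hπσ : ‖π ^ j * π ^ b‖ = r ^ j * r ^ b := by rw [norm_mul, norm_pow, norm_pow]
    have h1 := hSHF p d hp2 Γ F κ red hred ρ hint S hS hPSL hRfin (π ^ j) (π ^ b) (r ^ j) (r ^ b)
      (hrj j) (hlt1 j hj0) (norm_pow π j) (hrj b) (hlt1 b hb1) (norm_pow π b) Z hZn ⟨z, hz, hnub⟩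
      hrs0 hrs1 hπσ
    have h2 := hGRD p hp2 Γ F κ red hred ρ hint (π ^ j * π ^ b) (r ^ j * r ^ b) (r ^ (j + b + 1))
      hrs0 hrs1 hπσ (hrj (j + b + 1)).le (by rw [← pow_add]; exact hstep (j + b))
      (by rw [← pow_add]; exact hnext (j + b)) Z
    rw [IDX_L_congr ρ hint hrs0.le (hrj (j + b)).le (pow_add r j b).symm] at h2
    have h3 : (L (j + b + 1) ⊓ Z).relIndex (L (j + b) ⊓ Z) =
        Nat.card (LFT_sub_lt ρ hred hrs0 hrs1 hπσ hint Z) := h2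
    rw [h3, hw j hj0]
    exact h1
  have htel := hTEL Γ L Z (p ^ (4 * d)) b hL0 hanti hLn hZn hZL hindex hindexZ hshift
  have hcpt := hCPT Γ L Z ((p ^ (4 * d)) ^ (b + 1)) hanti hLn hLc hZc htel
  have hinf : ⨅ J, L J = adKer ρ := by
    refine le_antisymm ?_ ?_
    · intro g hg
      have hg' : ∀ k, g ∈ L k := fun k => (Subgroup.mem_iInf.1 hg) k
      have hlim : Filter.Tendsto (fun k : ℕ => r ^ k) Filter.atTop (nhds 0) :=
        tendsto_pow_atTop_nhds_zero_of_lt_one hπ0.le hπ1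
      have hz : ∀ x : F, (∀ k, ‖x‖ ≤ r ^ k) → x = 0 := by
        intro x hx
        rw [← norm_eq_zero]
        exact le_antisymm (ge_of_tendsto' hlim hx) (norm_nonneg _)
      have h1 : ρ g 0 1 = 0 := hz _ fun k => ((hmemL k g).1 (hg' k)).1
      have h2 : ρ g 1 0 = 0 := hz _ fun k => ((hmemL k g).1 (hg' k)).2.1
      have h3 : ρ g 0 0 - ρ g 1 1 = 0 := hz _ fun k => ((hmemL k g).1 (hg' k)).2.2
      have h4 : ρ g 1 1 = ρ g 0 0 := (sub_eq_zero.mp h3).symm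
      refine ⟨ρ g 0 0, ?_⟩
      ext a b
      fin_cases a <;> fin_cases b <;> simp [h1, h2, h4]
    · refine le_iInf fun k => ?_
      rintro g ⟨c, hc⟩
      rw [hmemL, hc]
      have := (hrj k).le
      simpa using this
  rw [hinf] at hcpt
  refine ⟨hcpt.1, ?_⟩
  have h1 : ((Z ⊔ adKer ρ).index : ℝ) ≤ (((p ^ (4 * d)) ^ (b + 1) : ℕ) : ℝ) := by
    exact_mod_cast hcpt.2
  exact h1.trans (IDX_numbers p d b hp.one_lt hd1 r _ hπ0 (hram1 π hπ1) hnub)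

end Pool.Agent.PU
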